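import Pool.Agent.MP_56f843_an.EndE

set_option autoImplicit false

namespace Pool.Agent.Results.MP_56f843_an.EndpointGrowth

open Set Filter Topology Pool.Agent.MP_56f843_an

/-- The exact growth of the extremal functions `F_m` at the end points, for every `m ≥ 2`. Let `j`
be the largest `i < m` minimising `(m / i) / log (m / i)`, `c` the minimum and `L = log (m / j)`.
Then `c x log (1 / x) ≤ F_m x ≤ c x log (1 / x) + C x`, the lower bound is attained at all
`x = (j / m) ^ k`, and `F_m x / x - c log (1 / x)` is asymptotic to a continuous nonnegative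
`L`-periodic function of `log (1 / x)`, whose zeros are exactly the multiples of `L`. -/
theorem result (m j : ℕ) (hm : 2 ≤ m) (hj : 1 ≤ j) (hjm : j < m)
    (hmin : ∀ i : ℕ, 1 ≤ i → i < m →
      ((m : ℝ) / j) / Real.log (m / j) ≤ ((m : ℝ) / i) / Real.log (m / i))
    (hlast : ∀ i : ℕ, j < i → i < m →
      ((m : ℝ) / j) / Real.log (m / j) < ((m : ℝ) / i) / Real.log (m / i)) :
    (∀ x ∈ Icc (0 : ℝ) 1, extremal m (1 - x) = extremal m x) ∧
    (∀ x ∈ Ioc (0 : ℝ) 1,
      ((m : ℝ) / j) / Real.log (m / j) * (x * Real.log (1 / x)) ≤ extremal m x ∧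
      extremal m x ≤ ((m : ℝ) / j) / Real.log (m / j) * (x * Real.log (1 / x)) +
        (m : ℝ) / (m - 1) * (m / j) * x) ∧
    (∀ k : ℕ, extremal m ((j / m : ℝ) ^ k) = k * (j / m : ℝ) ^ (k - 1)) ∧
    ∃ P : ℝ → ℝ, Continuous P ∧ (∀ t, P (t + Real.log (m / j)) = P t) ∧ (∀ t, 0 ≤ P t) ∧
      (∀ t, P t = 0 ↔ ∃ n : ℤ, t = n * Real.log (m / j)) ∧
      Tendsto (fun x : ℝ => extremal m x / x -
        ((m : ℝ) / j) / Real.log (m / j) * Real.log (1 / x) - P (Real.log (1 / x)))
        (𝓝[>] 0) (𝓝 0) := by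
  have H : IsLast m j := ⟨⟨hm, hj, hjm, hmin⟩, hlast⟩
  refine ⟨fun x hx => extremal_symm hm hx, fun x hx => H.toIsMin.bounds hx,
    fun k => H.toIsMin.value k, PP m j, H.toIsMin.continuous_PP, H.toIsMin.PP_add,
    H.toIsMin.PP_nonneg, H.PP_eq_zero_iff, H.toIsMin.tendsto_final⟩

end Pool.Agent.Results.MP_56f843_an.EndpointGrowth
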