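import Pool.Agent.MP_56f843_an.Five

set_option autoImplicit false

namespace Pool.Agent.Results.MP_56f843_an.ExtremalFive

open Set Pool.Agent.MP_56f843_an

/-- The extremal function for `m = 5` is the explicit series `seriesFive`: the series is
continuous, belongs to the class, bounds at rational points every function of the class (bounded or
not), and on `[0, 1]` it is the only bounded solution of its three functional equations. -/
theorem result :
    (∀ x ∈ Icc (0 : ℝ) 1, extremal 5 x = seriesFive x) ∧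
    Continuous seriesFive ∧
    InClass 5 seriesFive ∧
    (∀ f : ℝ → ℝ, InClass 5 f → ∀ q : ℚ, (q : ℝ) ∈ Icc (0 : ℝ) 1 → f q ≤ seriesFive q) ∧
    (∀ x ∈ Icc (0 : ℝ) 1, seriesFive (1 - x) = seriesFive x) ∧
    (∀ x ∈ Icc (0 : ℝ) (2 / 5), seriesFive x = 5 / 2 * x + 2 / 5 * seriesFive (5 / 2 * x)) ∧
    (∀ x ∈ Icc (2 / 5 : ℝ) (3 / 5), seriesFive x = 1 + 1 / 5 * seriesFive (5 * x - 2)) ∧
    (∀ G : ℝ → ℝ, (∃ B : ℝ, ∀ x ∈ Icc (0 : ℝ) 1, |G x| ≤ B) →
      (∀ x ∈ Icc (0 : ℝ) 1, G (1 - x) = G x) →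
      (∀ x ∈ Icc (0 : ℝ) (2 / 5), G x = 5 / 2 * x + 2 / 5 * G (5 / 2 * x)) →
      (∀ x ∈ Icc (2 / 5 : ℝ) (3 / 5), G x = 1 + 1 / 5 * G (5 * x - 2)) →
      ∀ x ∈ Icc (0 : ℝ) 1, G x = seriesFive x) := by
  have hF := fix_seriesFive
  refine ⟨?_, hF.continuous, hF.inClass, fun f hf q hq => hf.le_seriesFive_rat q hq,
    fun x _ => hF.refl x, ?_, ?_, ?_⟩
  · intro x hx
    apply le_antisymm
    · apply csSup_le (values_nonempty 5 (by omega) _)
      rintro _ ⟨f, hf, hbd, rfl⟩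
      exact hf.le_seriesFive hbd hx
    · apply le_csSup
      · refine ⟨seriesFive x, ?_⟩
        rintro _ ⟨f, hf, hbd, rfl⟩
        exact hf.le_seriesFive hbd hx
      · exact ⟨seriesFive, hF.inClass, (isCompact_Icc.image hF.continuous).bddAbove, rfl⟩
  · rintro x ⟨hx0, hx1⟩
    have h2 := hF.eqL (u := 5 / 2 * x) (by linarith) (by linarith)
    have e2 : 2 / 5 * (5 / 2 * x) = x := by ring
    rw [e2] at h2
    exact h2
  · rintro x ⟨hx0, hx1⟩
    have h2 := hF.eqM (t := 5 * x - 2) (by linarith) (by linarith)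
    have e2 : 2 / 5 + (5 * x - 2) / 5 = x := by ring
    rw [e2] at h2
    exact h2
  · rintro G ⟨B, hB⟩ hR hL hM x hx
    exact seriesFive_unique hB hR hL hM hx

end Pool.Agent.Results.MP_56f843_an.ExtremalFive
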