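import Pool.Agent.MP_56f843_an.Four

set_option autoImplicit false

namespace Pool.Agent.Results.MP_56f843_an.ExtremalFour

open Set Pool.Agent.MP_56f843_an

/-- Among all `m ≥ 4`, the series formula gives the extremal function exactly for `m = 4`; for
`m = 4` the extremal function is continuous and belongs to the class, and at rational points it
bounds every function of the class. -/
theorem result :
    (∀ m : ℕ, 4 ≤ m →
      ((∀ x ∈ Icc (0 : ℝ) 1, extremal m x = (m : ℝ) ^ 2 * series m x) ↔ m = 4)) ∧
    Continuous (fun x : ℝ => (4 : ℝ) ^ 2 * series 4 x) ∧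
    InClass 4 (fun x : ℝ => (4 : ℝ) ^ 2 * series 4 x) ∧
    (∀ f : ℝ → ℝ, InClass 4 f → ∀ q : ℚ, (q : ℝ) ∈ Icc (0 : ℝ) 1 →
      f q ≤ (4 : ℝ) ^ 2 * series 4 q) := by
  have e16 : (4 : ℝ) ^ 2 = 16 := by norm_num
  have hfun : (fun x : ℝ => (4 : ℝ) ^ 2 * series 4 x) = fun x => 2 * takagi x := by
    funext x
    rw [e16, series_four]
  refine ⟨?_, ?_, ?_, ?_⟩
  · intro m hm
    constructor
    · intro h
      by_contra hne
      have hm5 : 5 ≤ m := by omega
      have hm' : (5 : ℝ) ≤ m := by exact_mod_cast hm5
      have hm0 : (0 : ℝ) < m := by linarith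
      have h25 : (25 : ℝ) ≤ (m : ℝ) ^ 2 := by nlinarith
      have hx : 4 / (m : ℝ) ^ 2 ∈ Icc (0 : ℝ) 1 := by
        refine ⟨by positivity, ?_⟩
        rw [div_le_one (by positivity)]
        linarith
      have h1 := h _ hx
      have h2 : extremal m (4 / (m : ℝ) ^ 2) ≤ 4 / m := by
        apply csSup_le (values_nonempty m (by omega) _)
        rintro _ ⟨f, hf, -, rfl⟩
        exact hf.le_four_div hm5
      have h3 := series_ge hm5
      rw [← h1] at h3
      have h4 : 4 / (m : ℝ) < 5 / m := by
        apply div_lt_div_of_pos_right _ hm0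
        norm_num
      linarith
    · rintro rfl x hx
      apply le_antisymm
      · apply csSup_le (values_nonempty 4 (by omega) _)
        rintro _ ⟨f, hf, hbd, rfl⟩
        have := hf.le_takagi hbd hx
        push_cast
        rw [e16, series_four]
        exact this
      · apply le_csSup
        · refine ⟨2 * takagi x, ?_⟩
          rintro _ ⟨f, hf, hbd, rfl⟩
          exact hf.le_takagi hbd hx
        · refine ⟨fun x => 2 * takagi x, inClass_four_takagi, ?_, ?_⟩
          · exact (isCompact_Icc.image (continuous_const.mul continuous_takagi)).bddAbove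
          · push_cast
            rw [e16, series_four]
  · rw [hfun]
    exact continuous_const.mul continuous_takagi
  · rw [hfun]
    exact inClass_four_takagi
  · intro f hf q hq
    rw [e16, series_four]
    exact hf.le_takagi_rat q hq

end Pool.Agent.Results.MP_56f843_an.ExtremalFour
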