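import Pool.Agent.MP_56f843_an.LarJ

set_option autoImplicit false

namespace Pool.Agent.Results.MP_56f843_an.LargeM

open Set Pool.Agent.MP_56f843_an

/-- The extremal functions `F_m` for `m ≥ 1000`, with `J = ⌈m/4⌉ + 2` and
`Φ = profile`, `Φ x = inf_{n ≥ 1} n y ^ (1 - 1/n)`, `y = min x (1 - x)`.

If the first `K` points of the orbit of `x` under `x ↦ {m x}` lie in `[J/m, 1 - J/m]`, then
`F_m x = ∑_{k < K} m ^ (-k) + m ^ (-K) F_m {m ^ K x}` exactly, and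
`Φ ≤ F_m ≤ (1 + 6/m) Φ` makes this explicit up to the relative error `6/m` of the last term
(`K = 0`: on all of `[0,1]`). If the whole orbit lies in `[J/m, 1 - J/m]`, then
`F_m x = m / (m - 1)`, which is the maximum of `F_m`; for example `x = d / (m - 1)`. -/
theorem result (m : ℕ) (hm : 1000 ≤ m) :
    (∀ (K : ℕ) (x : ℝ), x ∈ Icc (0 : ℝ) 1 →
      (∀ k < K, Int.fract ((m : ℝ) ^ k * x) ∈
        Icc ((((m + 3) / 4 + 2 : ℕ) : ℝ) / m) (1 - (((m + 3) / 4 + 2 : ℕ) : ℝ) / m)) →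
      extremal m x = ∑ k ∈ Finset.range K, (1 / (m : ℝ)) ^ k +
        (1 / (m : ℝ)) ^ K * extremal m (Int.fract ((m : ℝ) ^ K * x)) ∧
      ∑ k ∈ Finset.range K, (1 / (m : ℝ)) ^ k +
        (1 / (m : ℝ)) ^ K * profile (Int.fract ((m : ℝ) ^ K * x)) ≤ extremal m x ∧
      extremal m x ≤ ∑ k ∈ Finset.range K, (1 / (m : ℝ)) ^ k +
        (1 / (m : ℝ)) ^ K * ((1 + 6 / m) * profile (Int.fract ((m : ℝ) ^ K * x)))) ∧
    (∀ x ∈ Icc (0 : ℝ) 1,
      (∀ k : ℕ, Int.fract ((m : ℝ) ^ k * x) ∈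
        Icc ((((m + 3) / 4 + 2 : ℕ) : ℝ) / m) (1 - (((m + 3) / 4 + 2 : ℕ) : ℝ) / m)) →
      extremal m x = m / (m - 1)) ∧
    (∀ x ∈ Icc (0 : ℝ) 1, extremal m x ≤ m / (m - 1)) ∧
    (∀ d : ℕ, (m + 3) / 4 + 2 ≤ d → d + 1 + ((m + 3) / 4 + 2) ≤ m →
      extremal m (d / (m - 1)) = m / (m - 1)) := by
  have hm2 : 2 ≤ m := by omega
  have hm0 : (0 : ℝ) < m := by
    have : 0 < m := by omega
    exact_mod_cast this
  refine ⟨?_, fun x hx h => extremal_eq_max hm hx h, fun x hx => extremal_le hm2 hx,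
    fun d h1 h2 => extremal_digit hm h1 h2⟩
  intro K x hx h
  have h1 := extremal_iterate hm K x hx h
  have hf := fract_mem ((m : ℝ) ^ K * x)
  have hK : (0 : ℝ) ≤ (1 / (m : ℝ)) ^ K := by positivity
  refine ⟨h1, ?_, ?_⟩
  · rw [h1]
    have := mul_le_mul_of_nonneg_left (profile_le_extremal hm2 hf) hK
    linarith
  · rw [h1]
    have := mul_le_mul_of_nonneg_left (extremal_le_profile (m := m) (by omega) hf) hK
    linarith

end Pool.Agent.Results.MP_56f843_an.LargeM
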